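import Pool.Agent.Helper79.KM.Defs

/-!
Blocks B1, B2, B3: normalisers act on `LL S`, cocharacters of the closure, block diagonal matrices.
-/

set_option autoImplicit false

open Matrix H77MT MvPolynomial
open Pool.Agent.Helper79.KM

namespace Pool.Agent.Helper77.KM

section gen
variable {K : Type*} [Field K] {n : Type*} [Fintype n] [DecidableEq n]

lemma lt_X (g : Matrix n n K) (p : n × n) : lt g (X p) = ∑ k, C (g p.1 k) * X (k, p.2) := by
  simp [lt]

lemma lt_C (g : Matrix n n K) (c : K) : lt g (C c) = C c := by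
  simp [lt, MvPolynomial.algebraMap_eq]

/-- left translations commute with the derivations -/
lemma DD_lt (A g : Matrix n n K) (f : MvPolynomial (n × n) K) : DD A (lt g f) = lt g (DD A f) := by
  induction f using MvPolynomial.induction_on with
  | C c => simp [lt_C]
  | add p q hp hq => simp only [map_add, hp, hq]
  | mul_X p i hp =>
    have hX : DD A (lt g (X i)) = lt g (DD A (X i)) := by
      rw [lt_X, DD_X, map_sum, map_sum]
      have e1 : ∀ k, DD A (C (g i.1 k) * X (k, i.2) : MvPolynomial (n × n) K) =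
          ∑ l, C (g i.1 k * A l i.2) * X (k, l) := by
        intro k
        rw [Derivation.leibniz, DD_C, smul_zero, add_zero, DD_X, smul_eq_mul, Finset.mul_sum]
        refine Finset.sum_congr rfl fun l _ => ?_
        simp only [C_mul]; ring
      have e2 : ∀ l, lt g (C (A l i.2) * X (i.1, l)) = ∑ k, C (g i.1 k * A l i.2) * X (k, l) := by
        intro l
        rw [map_mul, lt_C, lt_X, Finset.mul_sum]
        refine Finset.sum_congr rfl fun k _ => ?_
        simp only [C_mul]; ring
      simp_rw [e1, e2]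
      rw [Finset.sum_comm]
    simp only [map_mul, Derivation.leibniz, hp, hX, map_add, smul_eq_mul]

lemma zpow_sum2 {a : K} (ha : a ≠ 0) {ι : Type*} (s : Finset ι) (f : ι → ℤ) :
    a ^ (∑ i ∈ s, f i) = ∏ i ∈ s, a ^ f i := by
  classical
  induction s using Finset.induction_on with
  | empty => simp
  | insert i s hi ih => rw [Finset.sum_insert hi, Finset.prod_insert hi, zpow_add₀ ha, ih]

end gen

variable {K : Type} [Field K] {n : Type} [Fintype n] [DecidableEq n]

/-- B1 -/
theorem LL_norm {S : Set (Matrix n n K)} {A g g' : Matrix n n K} (h1 : g * g' = 1) (hg : ∀ s ∈ S, g * s * g' ∈ S)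
    (hg' : ∀ s ∈ S, g' * s * g ∈ S) (hA : A ∈ LL S) : g' * A * g ∈ LL S := by
  intro f hf s hs
  have h2 : g' * g = 1 := mul_eq_one_comm.mp h1
  have h := hA (rt g (lt g' f)) (fun t ht => by
    rw [ev_rt, ev_lt, ← Matrix.mul_assoc]
    exact hf _ (hg' t ht)) (g * s * g') (hg s hs)
  rw [DD_rt A g g' h1, DD_lt, ev_rt, ev_lt] at h
  have e : g' * (g * s * g' * g) = s := by
    rw [Matrix.mul_assoc (g * s), h2, Matrix.mul_one, ← Matrix.mul_assoc, h2, Matrix.one_mul]
  rwa [e] at h

/-- B2 -/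
theorem LL_ht [CharZero K] {S : Set (Matrix n n K)} (hmul : ∀ s ∈ S, ∀ t ∈ S, s * t ∈ S) (P : Finset ℤ)
    (R : ℤ → Matrix n n K) (hR : ∀ z : K, z ≠ 0 → ∑ p ∈ P, z ^ p • R p ∈ zcl S) (hsum : ∑ p ∈ P, R p = 1) :
    ∑ p ∈ P, (p : K) • R p ∈ LL S := by
  classical
  intro f hf s hs
  let Ψ : MvPolynomial (n × n) K →ₐ[K] MvPolynomial ℤ K :=
    aeval (fun q : n × n => ∑ p ∈ P, C ((s * R p) q.1 q.2) * X p)
  have hΨX : ∀ q : n × n, Ψ (X q) = ∑ p ∈ P, C ((s * R p) q.1 q.2) * X p := fun q => by simp [Ψ]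
  have hΨC : ∀ c : K, Ψ (C c) = C c := fun c => by simp [Ψ, MvPolynomial.algebraMap_eq]
  let E : Derivation K (MvPolynomial ℤ K) (MvPolynomial ℤ K) :=
    mkDerivation K (fun p => C (p : K) * X p)
  have hEX : ∀ p, E (X p) = C (p : K) * X p := fun p => by simp [E]
  have hEC : ∀ c : K, E (C c) = 0 := fun c => by simp [E]
  have hev : ∀ (y : ℤ → K) (q : MvPolynomial (n × n) K),
      MvPolynomial.eval y (Ψ q) = ev (s * ∑ p ∈ P, y p • R p) q := by
    intro y q
    induction q using MvPolynomial.induction_on with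
    | C a => rw [hΨC, ev_C, eval_C]
    | add p q hp hq => simp only [map_add, hp, hq]
    | mul_X p i hp =>
      have e1 : MvPolynomial.eval y (Ψ (X i)) = ev (s * ∑ p ∈ P, y p • R p) (X i) := by
        rw [hΨX, map_sum, ev_X, Matrix.mul_sum, Matrix.sum_apply]
        refine Finset.sum_congr rfl fun p _ => ?_
        rw [map_mul, eval_C, eval_X, Matrix.mul_smul, Matrix.smul_apply, smul_eq_mul, mul_comm]
      rw [map_mul, map_mul, map_mul, hp, e1]
  have hev1 : ∀ q : MvPolynomial (n × n) K, MvPolynomial.eval (fun _ => (1 : K)) (Ψ q) = ev s q := by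
    intro q
    rw [hev]
    simp only [one_smul]
    rw [hsum, Matrix.mul_one]
  have hcomm : ∀ q : MvPolynomial (n × n) K, MvPolynomial.eval (fun _ => (1 : K)) (E (Ψ q)) =
      ev s (DD (∑ p ∈ P, (p : K) • R p) q) := by
    intro q
    induction q using MvPolynomial.induction_on with
    | C a => simp [hΨC, hEC]
    | add p q hp hq => simp only [map_add, hp, hq]
    | mul_X q i hq =>
      have hX : MvPolynomial.eval (fun _ => (1 : K)) (E (Ψ (X i))) =
          ev s (DD (∑ p ∈ P, (p : K) • R p) (X i)) := by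
        have e1 : ev s (DD (∑ p ∈ P, (p : K) • R p) (X i)) = (s * ∑ p ∈ P, (p : K) • R p) i.1 i.2 := by
          rw [DD_X, map_sum, Matrix.mul_apply]
          refine Finset.sum_congr rfl fun k _ => ?_
          rw [map_mul, ev_C, ev_X, mul_comm]
        rw [e1, hΨX, map_sum, map_sum, Matrix.mul_sum, Matrix.sum_apply]
        refine Finset.sum_congr rfl fun p _ => ?_
        rw [Derivation.leibniz, hEC, hEX, smul_zero, add_zero, smul_eq_mul, map_mul, map_mul, eval_C, eval_C,
          eval_X, Matrix.mul_smul, Matrix.smul_apply, smul_eq_mul]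
        ring
      rw [map_mul, Derivation.leibniz, Derivation.leibniz, map_add, map_add]
      simp only [smul_eq_mul, map_mul]
      rw [hq, hX, hev1, hev1]
  have hmon : ∀ (α : ℤ →₀ ℕ) (c : K), MvPolynomial.eval (fun _ => (1 : K)) (E (monomial α c)) =
      c * (((∑ i ∈ α.support, (α i : ℤ) * i : ℤ)) : K) := by
    intro α c
    have e : ∀ (t : ℤ →₀ ℕ) (c : K), MvPolynomial.eval (fun _ => (1 : K)) (monomial t c) = c := by
      intro t c
      rw [eval_monomial]; simp
    simp only [E]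
    rw [mkDerivation_monomial, smul_eval, Finsupp.sum, map_sum]
    congr 1
    push_cast
    refine Finset.sum_congr rfl fun i _ => ?_
    rw [smul_eq_mul, map_mul, map_mul, e, eval_C, eval_X, mul_one]
  have hval : ev s (DD (∑ p ∈ P, (p : K) • R p) f) =
      ∑ α ∈ (Ψ f).support, (Ψ f).coeff α * (((∑ i ∈ α.support, (α i : ℤ) * i : ℤ)) : K) := by
    rw [← hcomm]
    conv_lhs => rw [(Ψ f).as_sum]
    rw [map_sum, map_sum]
    exact Finset.sum_congr rfl fun α _ => hmon α _
  rw [hval]
  have h2 : (2 : K) ≠ 0 := two_ne_zero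
  apply sum_factor (Ψ f).support (fun α => (Ψ f).coeff α)
    (fun α => (2 : K) ^ (∑ i ∈ α.support, (α i : ℤ) * i : ℤ))
  · intro m
    have e1 := hev (fun p => ((2 : K) ^ m) ^ p) f
    have e2 : ev (s * ∑ p ∈ P, ((2 : K) ^ m) ^ p • R p) f = 0 :=
      zcl_mul hmul (subset_zcl S hs) (hR _ (pow_ne_zero m h2)) f hf
    rw [e2, eval_eq] at e1
    rw [← e1]
    refine Finset.sum_congr rfl fun α _ => ?_
    congr 1
    rw [zpow_sum2 h2, ← Finset.prod_pow]
    refine Finset.prod_congr rfl fun i _ => ?_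
    rw [← zpow_natCast (2 : K) m, ← _root_.zpow_mul, ← zpow_natCast _ m, ← _root_.zpow_mul, ← zpow_natCast _ (α i), ← _root_.zpow_mul]
    congr 1
    ring
  · intro α _ β _ hαβ
    have h3 : (∑ i ∈ α.support, (α i : ℤ) * i : ℤ) = ∑ i ∈ β.support, (β i : ℤ) * i := by
      have h4 : (((2 : ℚ) ^ (∑ i ∈ α.support, (α i : ℤ) * i : ℤ) : ℚ) : K) =
          (((2 : ℚ) ^ (∑ i ∈ β.support, (β i : ℤ) * i : ℤ) : ℚ) : K) := by
        push_cast
        exact hαβ
      exact zpow_right_injective₀ (by norm_num : (0 : ℚ) < 2) (by norm_num) (Rat.cast_injective h4)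
    simp only [h3]

variable {Γ X : Type} [Group Γ] [DecidableEq X] [Fintype X] {g : ℕ}

/-- B3 -/
theorem LL_block (ρ : Rep Γ X g K) (Δ : Subgroup Γ) {A : Matrix (Ix g × X) (Ix g × X) K} (hA : A ∈ LL (img ρ Δ)) :
    ∃ M : X → Matrix (Ix g) (Ix g) K, A = blockDiagonal M := by
  refine ⟨fun x => Matrix.of fun i j => A (i, x) (j, x), ?_⟩
  refine Matrix.ext fun a b => ?_
  obtain ⟨i, x⟩ := a
  obtain ⟨j, y⟩ := b
  rw [blockDiagonal_apply]
  by_cases h : x = y
  · subst h
    rw [if_pos rfl]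
    rfl
  · have h' : x ≠ y := h
    rw [if_neg h]
    have h1 : (1 : Matrix (Ix g × X) (Ix g × X) K) ∈ img ρ Δ := by
      refine ⟨1, Δ.one_mem, ?_⟩
      have e : (fun x : X => ((ρ x 1 : GL (Ix g) K) : Matrix (Ix g) (Ix g) K)) = 1 := by
        funext x
        rw [map_one]
        rfl
      rw [mat, e, blockDiagonal_one]
    have h2 := hA (MvPolynomial.X ((i, x), (j, y))) (by
      rintro s ⟨γ, -, rfl⟩
      rw [ev_X, mat, blockDiagonal_apply, if_neg h']) 1 h1
    rw [DD_X, map_sum, Finset.sum_eq_single (i, x)] at h2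
    · simpa using h2
    · intro k _ hk
      rw [map_mul, ev_C, ev_X, Matrix.one_apply_ne (Ne.symm hk), mul_zero]
    · intro hk
      exact absurd (Finset.mem_univ _) hk

end Pool.Agent.Helper77.KM
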